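import Mathlib

/-!
Definitions for MP_86eb6d_gt, the torus `ℝ²/ℤ²`
-/

set_option autoImplicit false

namespace Pool.Agent.Eqt

open scoped ContDiff

/-- The metric `E dx² + 2F dx dy + G dy²` on the torus `ℝ²/ℤ²`, with coefficients which are
functions of `y` only: the translations in `x` are isometries. The coordinate `y` is such that the
area form is `A dx dy` with a constant `A`. -/
structure IsMetric (E F G : ℝ → ℝ) (A : ℝ) : Prop where
  smooth : ContDiff ℝ ∞ E ∧ ContDiff ℝ ∞ F ∧ ContDiff ℝ ∞ G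
  periodic : ∀ y, E (y + 1) = E y ∧ F (y + 1) = F y ∧ G (y + 1) = G y
  pos : ∀ y, 0 < E y
  area_pos : 0 < A
  area : ∀ y, E y * G y - F y ^ 2 = A ^ 2

/-- `u ∂_x + w ∂_y` (functions of the time `t` and of `x, y`, 1-periodic in `x` and `y`) is a
classical solution of the incompressible Euler equations with pressure `p` on the torus with the
metric `E dx² + 2F dx dy + G dy²` (coefficients functions of `x, y`), and
`t ↦ (X t x y, Y t x y)` is its flow, lifted to the plane. With `v_1 = E u + F w`,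
`v_2 = F u + G w` the equations are
`∂_t v_i + u ∂_x v_i + w ∂_y v_i - (∂_i E u² + 2 ∂_i F u w + ∂_i G w²)/2 = - ∂_i p`. -/
structure IsEulerFlow (E F G : ℝ → ℝ → ℝ) (u w p X Y : ℝ → ℝ → ℝ → ℝ) : Prop where
  smooth_u : ContDiff ℝ 1 (fun z : ℝ × ℝ × ℝ => u z.1 z.2.1 z.2.2)
  smooth_w : ContDiff ℝ 1 (fun z : ℝ × ℝ × ℝ => w z.1 z.2.1 z.2.2)
  smooth_p : ∀ t, ContDiff ℝ 1 (fun z : ℝ × ℝ => p t z.1 z.2)
  periodic_x : ∀ t x y, u t (x + 1) y = u t x y ∧ w t (x + 1) y = w t x y ∧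
    p t (x + 1) y = p t x y
  periodic_y : ∀ t x y, u t x (y + 1) = u t x y ∧ w t x (y + 1) = w t x y ∧
    p t x (y + 1) = p t x y
  div_free : ∀ t x y, deriv (fun x => Real.sqrt (E x y * G x y - F x y ^ 2) * u t x y) x +
    deriv (fun y => Real.sqrt (E x y * G x y - F x y ^ 2) * w t x y) y = 0
  euler_x : ∀ t x y, deriv (fun t => E x y * u t x y + F x y * w t x y) t +
    u t x y * deriv (fun x => E x y * u t x y + F x y * w t x y) x +
    w t x y * deriv (fun y => E x y * u t x y + F x y * w t x y) y -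
    (deriv (fun x => E x y) x * u t x y ^ 2 + 2 * deriv (fun x => F x y) x * u t x y * w t x y +
      deriv (fun x => G x y) x * w t x y ^ 2) / 2 = -deriv (fun x => p t x y) x
  euler_y : ∀ t x y, deriv (fun t => F x y * u t x y + G x y * w t x y) t +
    u t x y * deriv (fun x => F x y * u t x y + G x y * w t x y) x +
    w t x y * deriv (fun y => F x y * u t x y + G x y * w t x y) y -
    (deriv (fun y => E x y) y * u t x y ^ 2 + 2 * deriv (fun y => F x y) y * u t x y * w t x y +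
      deriv (fun y => G x y) y * w t x y ^ 2) / 2 = -deriv (fun y => p t x y) y
  start : ∀ x y, X 0 x y = x ∧ Y 0 x y = y
  flow : ∀ t x y, HasDerivAt (fun t => X t x y) (u t (X t x y) (Y t x y)) t ∧
    HasDerivAt (fun t => Y t x y) (w t (X t x y) (Y t x y)) t

/-- `exp_e v = φ` for the metric `E dx² + 2F dx dy + G dy²` on `ℝ²/ℤ²`: the flow at time 1 of an
Euler solution with initial velocity `v = v₁ ∂_x + v₂ ∂_y` is the map of the torus with the lift
`(φ₁, φ₂)`. -/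
def ExpEq (E F G : ℝ → ℝ → ℝ) (v₁ v₂ φ₁ φ₂ : ℝ → ℝ → ℝ) : Prop :=
  ∃ u w p X Y : ℝ → ℝ → ℝ → ℝ, IsEulerFlow E F G u w p X Y ∧
    (∀ x y, u 0 x y = v₁ x y ∧ w 0 x y = v₂ x y) ∧
    ∃ k l : ℤ, ∀ x y, X 1 x y = φ₁ x y + k ∧ Y 1 x y = φ₂ x y + l

/-- Lift of a `C¹` diffeomorphism of the torus `ℝ²/ℤ²`, isotopic to the identity (it commutes with
the deck translations), preserving `dx dy` (Jacobian 1) and commuting with all translations
in `x`. -/
structure IsEquivariant (φ₁ φ₂ : ℝ → ℝ → ℝ) : Prop where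
  smooth : ContDiff ℝ 1 (fun z : ℝ × ℝ => φ₁ z.1 z.2) ∧ ContDiff ℝ 1 (fun z : ℝ × ℝ => φ₂ z.1 z.2)
  translations : ∀ s x y, φ₁ (x + s) y = φ₁ x y + s ∧ φ₂ (x + s) y = φ₂ x y
  deck : ∀ x y, φ₁ x (y + 1) = φ₁ x y ∧ φ₂ x (y + 1) = φ₂ x y + 1
  area : ∀ x y, deriv (fun x => φ₁ x y) x * deriv (fun y => φ₂ x y) y -
    deriv (fun y => φ₁ x y) y * deriv (fun x => φ₂ x y) x = 1

end Pool.Agent.Eqt
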