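import Mathlib

/-!
Invariant Euler flows on a circle invariant torus: the scalar fixed point equation
-/

set_option autoImplicit false

namespace Pool.Agent.Eqt

open MeasureTheory Set Filter Topology intervalIntegral

/-- derivative under the integral -/
theorem hasDeriv_par {H : ℝ → ℝ} (hH : ContDiff ℝ 1 H) {r : ℝ → ℝ} (hr : Continuous r) (L y : ℝ) :
    HasDerivAt (fun y => ∫ s in (0:ℝ)..L, H (y + s) * r s)
      (∫ s in (0:ℝ)..L, deriv H (y + s) * r s) y := by
  have hH' : Continuous (deriv H) := hH.continuous_deriv le_rfl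
  have hHc : Continuous H := hH.continuous
  have hc : Continuous (fun p : ℝ × ℝ => deriv H (p.1 + p.2) * r p.2) := by fun_prop
  obtain ⟨C, hC⟩ := ((isCompact_Icc (a := y - 1) (b := y + 1)).prod
    (isCompact_uIcc (a := (0:ℝ)) (b := L))).exists_bound_of_continuousOn hc.continuousOn
  refine (intervalIntegral.hasDerivAt_integral_of_dominated_loc_of_deriv_le
    (F := fun y s => H (y + s) * r s) (F' := fun y s => deriv H (y + s) * r s)
    (bound := fun _ => C) (s := Icc (y - 1) (y + 1)) (Icc_mem_nhds (by linarith) (by linarith))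
    ?_ ?_ ?_ ?_ ?_ ?_).2
  · refine Eventually.of_forall fun x => ?_
    exact (by fun_prop : Continuous (fun s => H (x + s) * r s)).aestronglyMeasurable
  · exact (by fun_prop : Continuous (fun s => H (y + s) * r s)).intervalIntegrable _ _
  · exact (by fun_prop : Continuous (fun s => deriv H (y + s) * r s)).aestronglyMeasurable
  · refine Eventually.of_forall fun t ht x hx => ?_
    exact hC (x, t) ⟨hx, uIoc_subset_uIcc ht⟩
  · exact continuous_const.intervalIntegrable _ _
  · refine Eventually.of_forall fun t _ x _ => ?_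
    have h1 : HasDerivAt H (deriv H (x + t)) (x + t) :=
      (hH.differentiable one_ne_zero _).hasDerivAt
    exact (h1.comp_add_const x t).mul_const (r t)

/-- smoothness under the integral -/
theorem contDiff_par {H : ℝ → ℝ} {n : ℕ} (hH : ContDiff ℝ n H) {r : ℝ → ℝ} (hr : Continuous r)
    (L : ℝ) : ContDiff ℝ n (fun y => ∫ s in (0:ℝ)..L, H (y + s) * r s) := by
  induction n generalizing H with
  | zero =>
    rw [Nat.cast_zero, contDiff_zero] at hH ⊢
    fun_prop
  | succ n ih =>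
    have hH1 : ContDiff ℝ 1 H := hH.of_le (by norm_cast; omega)
    have hd : deriv (fun y => ∫ s in (0:ℝ)..L, H (y + s) * r s) =
        fun y => ∫ s in (0:ℝ)..L, deriv H (y + s) * r s := by
      funext y
      exact (hasDeriv_par hH1 hr L y).deriv
    have hs : ContDiff ℝ (n + 1) H := by exact_mod_cast hH
    have : ContDiff ℝ (n + 1) (fun y => ∫ s in (0:ℝ)..L, H (y + s) * r s) := by
      rw [contDiff_succ_iff_deriv]
      refine ⟨fun y => (hasDeriv_par hH1 hr L y).differentiableAt, by simp, ?_⟩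
      rw [hd]
      exact ih (contDiff_succ_iff_deriv.1 hs).2.2
    exact_mod_cast this

/-- truncation to `[0, 1/2]` -/
noncomputable def cut (t : ℝ) : ℝ := max (min t (1 / 2)) 0

theorem cut_mem (t : ℝ) : 0 ≤ cut t ∧ cut t ≤ 1 / 2 := by
  unfold cut
  constructor
  · exact le_max_right _ _
  · exact max_le (min_le_right _ _) (by norm_num)

theorem cut_self {t : ℝ} (h0 : 0 ≤ t) (h1 : t ≤ 1 / 2) : cut t = t := by
  unfold cut
  rw [min_eq_left h1, max_eq_left h0]

theorem cut_lip (s t : ℝ) : |cut s - cut t| ≤ |s - t| := by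
  unfold cut
  refine (abs_max_sub_max_le_abs (min s (1 / 2)) (min t (1 / 2)) 0).trans ?_
  exact (abs_min_sub_min_le_max s (1 / 2) t (1 / 2)).trans (by simp)

/-- `(1 - cut t)^(-1/2)` -/
noncomputable def rho (t : ℝ) : ℝ := (Real.sqrt (1 - cut t))⁻¹

theorem cut_cont : Continuous cut := by unfold cut; fun_prop

theorem sqrt_pos' (t : ℝ) : 0 < Real.sqrt (1 - cut t) :=
  Real.sqrt_pos.2 (by have := (cut_mem t).2; linarith)

theorem rho_cont : Continuous rho := by
  unfold rho
  exact ((continuous_const.sub cut_cont).sqrt).inv₀ fun t => (sqrt_pos' t).ne'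

theorem rho_ge (t : ℝ) : 1 ≤ rho t := by
  unfold rho
  rw [one_le_inv₀ (sqrt_pos' t)]
  have := (cut_mem t).1
  exact Real.sqrt_le_iff.2 ⟨by norm_num, by linarith⟩

theorem rho_lip (s t : ℝ) : |rho s - rho t| ≤ 2 * |s - t| := by
  have hs := sqrt_pos' s
  have ht := sqrt_pos' t
  have h1 : (1:ℝ) / 2 ≤ Real.sqrt (1 - cut s) := by
    apply Real.le_sqrt_of_sq_le
    have := (cut_mem s).2
    nlinarith
  have h2 : (1:ℝ) / 2 ≤ Real.sqrt (1 - cut t) := by
    apply Real.le_sqrt_of_sq_le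
    have := (cut_mem t).2
    nlinarith
  have e1 : Real.sqrt (1 - cut s) ^ 2 = 1 - cut s := Real.sq_sqrt (by have := (cut_mem s).2; linarith)
  have e2 : Real.sqrt (1 - cut t) ^ 2 = 1 - cut t := Real.sq_sqrt (by have := (cut_mem t).2; linarith)
  have hc := cut_lip s t
  unfold rho
  set a := Real.sqrt (1 - cut s) with ha
  set b := Real.sqrt (1 - cut t) with hb
  have h3 : a⁻¹ - b⁻¹ = (cut s - cut t) / (a * b * (a + b)) := by
    field_simp
    nlinarith
  have ha2 : 1 / 2 ≤ a ^ 2 := by rw [e1]; have := (cut_mem s).2; linarith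
  have hb2 : 1 / 2 ≤ b ^ 2 := by rw [e2]; have := (cut_mem t).2; linarith
  have h4 : (1:ℝ) / 2 ≤ a * b * (a + b) := by
    have h5 : (1:ℝ) / 2 ≤ a * b := by
      by_contra hcon
      push Not at hcon
      nlinarith [mul_pos hs ht]
    nlinarith
  rw [h3, abs_div, abs_of_pos (by positivity : 0 < a * b * (a + b)), div_le_iff₀ (by positivity)]
  nlinarith [abs_nonneg (s - t)]

/-- the denominator -/
noncomputable def Dn (h : ℝ → ℝ) (L : ℝ) (z : ℝ → ℝ) (y : ℝ) : ℝ :=
  ∫ s in (0:ℝ)..L, h (y + s) * rho (z s)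

theorem Dn_cont {h : ℝ → ℝ} (hh : Continuous h) (L : ℝ) {z : ℝ → ℝ} (hz : Continuous z) :
    Continuous (Dn h L z) := by
  have := rho_cont
  unfold Dn
  fun_prop

theorem Dn_ge {h : ℝ → ℝ} (hh : Continuous h) {h0 : ℝ} (hh0 : ∀ y, h0 ≤ h y) (h00 : 0 < h0)
    {L : ℝ} (hL : 0 ≤ L) {z : ℝ → ℝ} (hz : Continuous z) (y : ℝ) : h0 * L ≤ Dn h L z y := by
  have hr := rho_cont
  have h1 : ∫ s in (0:ℝ)..L, h0 = h0 * L := by
    rw [intervalIntegral.integral_const]; simp; ring
  rw [← h1]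
  unfold Dn
  refine intervalIntegral.integral_mono_on hL (by simp) 
    ((by fun_prop : Continuous (fun s => h (y + s) * rho (z s))).intervalIntegrable _ _) ?_
  intro s _
  have h2 := hh0 (y + s)
  have h3 := rho_ge (z s)
  nlinarith

theorem Dn_lip {h : ℝ → ℝ} (hh : Continuous h) {h1 : ℝ} (hh1 : ∀ y, |h y| ≤ h1)
    {L : ℝ} (hL : 0 ≤ L) {z w : ℝ → ℝ} (hz : Continuous z) (hw : Continuous w) {d : ℝ}
    (hd : ∀ s, |z s - w s| ≤ d) (y : ℝ) : |Dn h L z y - Dn h L w y| ≤ 2 * h1 * L * d := by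
  have hr := rho_cont
  unfold Dn
  rw [← intervalIntegral.integral_sub
    ((by fun_prop : Continuous (fun s => h (y + s) * rho (z s))).intervalIntegrable _ _)
    ((by fun_prop : Continuous (fun s => h (y + s) * rho (w s))).intervalIntegrable _ _)]
  have hb : ∀ s ∈ Set.uIoc (0:ℝ) L, ‖h (y + s) * rho (z s) - h (y + s) * rho (w s)‖ ≤ 2 * h1 * d := by
    intro s _
    rw [← mul_sub, Real.norm_eq_abs, abs_mul]
    have h2 := hh1 (y + s)
    have h3 := rho_lip (z s) (w s)
    have h4 := hd s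
    have h5 : |rho (z s) - rho (w s)| ≤ 2 * d := by linarith
    calc |h (y + s)| * |rho (z s) - rho (w s)| ≤ h1 * (2 * d) :=
          mul_le_mul h2 h5 (abs_nonneg _) ((abs_nonneg _).trans h2)
      _ = 2 * h1 * d := by ring
  have := intervalIntegral.norm_integral_le_of_norm_le_const hb
  rw [Real.norm_eq_abs, sub_zero, abs_of_nonneg hL] at this
  linarith

/-- The fixed point equation. -/
theorem exists_fix {h : ℝ → ℝ} (hh : Continuous h) {h0 h1 : ℝ} (h00 : 0 < h0)
    (hh0 : ∀ y, h0 ≤ h y) (hh1 : ∀ y, h y ≤ h1) {kap B : ℝ} (hk : 0 < kap) :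
    ∃ L0 : ℝ, 0 < L0 ∧ ∀ L, L0 ≤ L → ∀ F : ℝ → ℝ, Continuous F → (∀ y, |F y| ≤ B) →
      ∃ z : ℝ → ℝ, Continuous z ∧ (∀ s, 0 ≤ z s) ∧ (∀ s, z s ≤ 1 / 2) ∧
        ∀ s, z s = kap⁻¹ * ∫ y in (0:ℝ)..1, h (s + y) * (F y / Dn h L z y) ^ 2 := by
  have h10 : 0 < h1 := h00.trans_le ((hh0 0).trans (hh1 0))
  have habs : ∀ y, |h y| ≤ h1 := fun y => by
    rw [abs_of_pos (h00.trans_le (hh0 y))]; exact hh1 y
  obtain ⟨L0, hL0⟩ : ∃ L0 : ℝ, 0 < L0 ∧ 8 * kap⁻¹ * h1 ^ 2 * B ^ 2 ≤ h0 ^ 3 * L0 ^ 2 ∧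
      2 * kap⁻¹ * h1 * B ^ 2 ≤ h0 ^ 2 * L0 ^ 2 := by
    refine ⟨1 + 8 * kap⁻¹ * h1 ^ 2 * B ^ 2 / h0 ^ 3 + 2 * kap⁻¹ * h1 * B ^ 2 / h0 ^ 2, by positivity,
      ?_, ?_⟩
    · set X := 8 * kap⁻¹ * h1 ^ 2 * B ^ 2 / h0 ^ 3 with hX
      set Y := 2 * kap⁻¹ * h1 * B ^ 2 / h0 ^ 2 with hY
      have hX0 : 0 ≤ X := by positivity
      have hY0 : 0 ≤ Y := by positivity
      have e : 8 * kap⁻¹ * h1 ^ 2 * B ^ 2 = h0 ^ 3 * X := by rw [hX]; field_simp
      rw [e]
      apply mul_le_mul_of_nonneg_left _ (by positivity)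
      nlinarith
    · set X := 8 * kap⁻¹ * h1 ^ 2 * B ^ 2 / h0 ^ 3 with hX
      set Y := 2 * kap⁻¹ * h1 * B ^ 2 / h0 ^ 2 with hY
      have hX0 : 0 ≤ X := by positivity
      have hY0 : 0 ≤ Y := by positivity
      have e : 2 * kap⁻¹ * h1 * B ^ 2 = h0 ^ 2 * Y := by rw [hY]; field_simp
      rw [e]
      apply mul_le_mul_of_nonneg_left _ (by positivity)
      nlinarith
  refine ⟨L0, hL0.1, fun L hL F hF hFB => ?_⟩
  have hLpos : 0 < L := hL0.1.trans_le hL
  have hLL : L0 ^ 2 ≤ L ^ 2 := pow_le_pow_left₀ hL0.1.le hL 2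
  have hD0 : 0 < h0 * L := by positivity
  -- the map
  have hcont : ∀ z : ℝ → ℝ, Continuous z →
      Continuous (fun s => kap⁻¹ * ∫ y in (0:ℝ)..1, h (s + y) * (F y / Dn h L z y) ^ 2) := by
    intro z hz
    have h3 : Continuous (fun y => F y / Dn h L z y) :=
      hF.div (Dn_cont hh L hz) fun y => (hD0.trans_le (Dn_ge hh hh0 h00 hLpos.le hz y)).ne'
    refine continuous_const.mul (intervalIntegral.continuous_parametric_intervalIntegral_of_continuous'
      (f := fun s y => h (s + y) * (F y / Dn h L z y) ^ 2) ?_ 0 1)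
    exact (hh.comp (continuous_fst.add continuous_snd)).mul ((h3.comp continuous_snd).pow 2)
  have hbd0 : ∀ z : ℝ → ℝ, Continuous z → ∀ y, (F y / Dn h L z y) ^ 2 ≤ B ^ 2 / (h0 * L) ^ 2 := by
    intro z hz y
    rw [div_pow]
    have h4 := Dn_ge hh hh0 h00 hLpos.le hz y
    have h5 : F y ^ 2 ≤ B ^ 2 := sq_le_sq' (by have := (abs_le.1 (hFB y)).1; linarith) (abs_le.1 (hFB y)).2
    exact div_le_div₀ (by positivity) h5 (by positivity) (pow_le_pow_left₀ hD0.le h4 2)
  have hval : ∀ z : ℝ → ℝ, Continuous z → ∀ s,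
      0 ≤ kap⁻¹ * ∫ y in (0:ℝ)..1, h (s + y) * (F y / Dn h L z y) ^ 2 ∧
      kap⁻¹ * ∫ y in (0:ℝ)..1, h (s + y) * (F y / Dn h L z y) ^ 2 ≤ 1 / 2 := by
    intro z hz s
    have h3 : Continuous (fun y => F y / Dn h L z y) :=
      hF.div (Dn_cont hh L hz) fun y => (hD0.trans_le (Dn_ge hh hh0 h00 hLpos.le hz y)).ne'
    constructor
    · apply mul_nonneg (by positivity)
      apply intervalIntegral.integral_nonneg (by norm_num)
      intro y _
      have := hh0 (s + y)
      have : 0 ≤ h (s + y) := by linarith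
      positivity
    · have h6 : ∫ y in (0:ℝ)..1, h (s + y) * (F y / Dn h L z y) ^ 2 ≤
          ∫ y in (0:ℝ)..1, h1 * (B ^ 2 / (h0 * L) ^ 2) := by
        refine intervalIntegral.integral_mono_on (by norm_num)
          (((hh.comp (continuous_const.add continuous_id)).mul (h3.pow 2)).intervalIntegrable _ _)
          (by simp) ?_
        intro y _
        exact mul_le_mul (hh1 _) (hbd0 z hz y) (by positivity) h10.le
      rw [intervalIntegral.integral_const] at h6
      have h7 : kap⁻¹ * (h1 * (B ^ 2 / (h0 * L) ^ 2)) ≤ 1 / 2 := by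
        have : kap⁻¹ * (h1 * (B ^ 2 / (h0 * L) ^ 2)) = (kap⁻¹ * h1 * B ^ 2) / (h0 * L) ^ 2 := by
          field_simp
        rw [this, div_le_iff₀ (by positivity)]
        have := mul_le_mul_of_nonneg_left hLL (by positivity : 0 ≤ h0 ^ 2)
        nlinarith [hL0.2.2]
      simp only [sub_zero, smul_eq_mul, one_mul] at h6
      exact (mul_le_mul_of_nonneg_left h6 (by positivity)).trans h7
  let Φ : BoundedContinuousFunction ℝ ℝ → BoundedContinuousFunction ℝ ℝ := fun z =>
    BoundedContinuousFunction.ofNormedAddCommGroup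
      (fun s => kap⁻¹ * ∫ y in (0:ℝ)..1, h (s + y) * (F y / Dn h L z y) ^ 2)
      (hcont z z.continuous) (1 / 2) (fun s => by
        rw [Real.norm_eq_abs, abs_of_nonneg (hval z z.continuous s).1]
        exact (hval z z.continuous s).2)
  have hΦ : ∀ z s, Φ z s = kap⁻¹ * ∫ y in (0:ℝ)..1, h (s + y) * (F y / Dn h L z y) ^ 2 :=
    fun z s => rfl
  have hcontr : ContractingWith (1 / 2) Φ := by
    refine ⟨by norm_num, LipschitzWith.of_dist_le_mul fun z w => ?_⟩
    rw [BoundedContinuousFunction.dist_le (by positivity)]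
    intro s
    rw [hΦ, hΦ, Real.dist_eq, ← mul_sub]
    have hz3 : Continuous (fun y => F y / Dn h L z y) :=
      hF.div (Dn_cont hh L z.continuous)
        fun y => (hD0.trans_le (Dn_ge hh hh0 h00 hLpos.le z.continuous y)).ne'
    have hw3 : Continuous (fun y => F y / Dn h L w y) :=
      hF.div (Dn_cont hh L w.continuous)
        fun y => (hD0.trans_le (Dn_ge hh hh0 h00 hLpos.le w.continuous y)).ne'
    have i1 : IntervalIntegrable (fun y => h (s + y) * (F y / Dn h L z y) ^ 2) volume 0 1 :=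
      ((hh.comp (continuous_const.add continuous_id)).mul (hz3.pow 2)).intervalIntegrable _ _
    have i2 : IntervalIntegrable (fun y => h (s + y) * (F y / Dn h L w y) ^ 2) volume 0 1 :=
      ((hh.comp (continuous_const.add continuous_id)).mul (hw3.pow 2)).intervalIntegrable _ _
    rw [← intervalIntegral.integral_sub i1 i2]
    have hb : ∀ y ∈ Set.uIoc (0:ℝ) 1, ‖h (s + y) * (F y / Dn h L z y) ^ 2 -
        h (s + y) * (F y / Dn h L w y) ^ 2‖ ≤
        h1 * (B ^ 2 * (2 * (2 * h1 * L * dist z w) / (h0 * L) ^ 3)) := by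
      intro y _
      rw [← mul_sub, Real.norm_eq_abs, abs_mul]
      refine mul_le_mul (habs _) ?_ (abs_nonneg _) h10.le
      have hz4 := Dn_ge hh hh0 h00 hLpos.le z.continuous y
      have hw4 := Dn_ge hh hh0 h00 hLpos.le w.continuous y
      have hl := Dn_lip hh habs hLpos.le z.continuous w.continuous
        (d := dist z w) (fun s => by
          rw [← Real.dist_eq]; exact BoundedContinuousFunction.dist_coe_le_dist s) y
      set a := Dn h L z y
      set b := Dn h L w y
      have ha : 0 < a := hD0.trans_le hz4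
      have hb' : 0 < b := hD0.trans_le hw4
      have e : (F y / a) ^ 2 - (F y / b) ^ 2 = F y ^ 2 * ((b - a) * (1 / (a * b ^ 2) + 1 / (a ^ 2 * b))) := by
        field_simp
        ring
      rw [e, abs_mul, abs_of_nonneg (sq_nonneg (F y))]
      have h5 : F y ^ 2 ≤ B ^ 2 :=
        sq_le_sq' (by have := (abs_le.1 (hFB y)).1; linarith) (abs_le.1 (hFB y)).2
      refine mul_le_mul h5 ?_ (abs_nonneg _) (by positivity)
      rw [abs_mul, abs_sub_comm, abs_of_pos (by positivity : 0 < 1 / (a * b ^ 2) + 1 / (a ^ 2 * b))]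
      have h6 : 1 / (a * b ^ 2) ≤ 1 / (h0 * L) ^ 3 := by
        apply one_div_le_one_div_of_le (by positivity)
        calc (h0 * L) ^ 3 = (h0 * L) * (h0 * L) ^ 2 := by ring
          _ ≤ a * b ^ 2 := by gcongr
      have h7 : 1 / (a ^ 2 * b) ≤ 1 / (h0 * L) ^ 3 := by
        apply one_div_le_one_div_of_le (by positivity)
        calc (h0 * L) ^ 3 = (h0 * L) ^ 2 * (h0 * L) := by ring
          _ ≤ a ^ 2 * b := by gcongr
      calc |a - b| * (1 / (a * b ^ 2) + 1 / (a ^ 2 * b))
          ≤ (2 * h1 * L * dist z w) * (1 / (h0 * L) ^ 3 + 1 / (h0 * L) ^ 3) := by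
            apply mul_le_mul hl (add_le_add h6 h7) (by positivity)
            exact (abs_nonneg _).trans hl
        _ = 2 * (2 * h1 * L * dist z w) / (h0 * L) ^ 3 := by ring
    have h8 := intervalIntegral.norm_integral_le_of_norm_le_const hb
    rw [Real.norm_eq_abs, sub_zero, abs_one, mul_one] at h8
    rw [abs_mul, abs_of_pos (by positivity : 0 < kap⁻¹)]
    refine (mul_le_mul_of_nonneg_left h8 (by positivity)).trans ?_
    have h9 : kap⁻¹ * (h1 * (B ^ 2 * (2 * (2 * h1 * L * dist z w) / (h0 * L) ^ 3))) =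
        (4 * kap⁻¹ * h1 ^ 2 * B ^ 2) / (h0 ^ 3 * L ^ 2) * dist z w := by
      field_simp
      ring
    rw [h9]
    apply mul_le_mul_of_nonneg_right _ dist_nonneg
    rw [div_le_iff₀ (by positivity)]
    have := mul_le_mul_of_nonneg_left hLL (by positivity : 0 ≤ h0 ^ 3)
    have h11 := hL0.2.1
    push_cast
    nlinarith
  obtain ⟨z, hz⟩ : ∃ z, Φ z = z := ⟨_, hcontr.fixedPoint_isFixedPt⟩
  refine ⟨z, z.continuous, fun s => ?_, fun s => ?_, fun s => ?_⟩
  · rw [← hz, hΦ]; exact (hval z z.continuous s).1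
  · rw [← hz, hΦ]; exact (hval z z.continuous s).2
  · conv_lhs => rw [← hz]
    exact hΦ z s

end Pool.Agent.Eqt
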