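import Pool.Agent.Eqt.Time
import Pool.Agent.Eqt.Defs

/-!
The invariant Euler flow
-/

set_option autoImplicit false

namespace Pool.Agent.Eqt

open MeasureTheory Set Filter Topology intervalIntegral
open scoped ContDiff

/-- The data of an invariant flow: `h`, `q` (metric `h⁻¹ (dx + q dy)² + A² h dy²`), the momentum
`m`, the potential `z`, the shift `τ`. -/
structure Dat (h q m z τ : ℝ → ℝ) (A T : ℝ) : Prop where
  hh : ContDiff ℝ 1 h
  hq : ContDiff ℝ 1 q
  hm : ContDiff ℝ 1 m
  ph : ∀ y, h (y + 1) = h y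
  pq : ∀ y, q (y + 1) = q y
  pm : ∀ y, m (y + 1) = m y
  hpos : ∀ y, 0 < h y
  hA : 0 < A
  z0 : ∀ s, 0 ≤ z s
  z1 : ∀ s, z s ≤ 1 / 2
  hz : ∀ s, z s = (A ^ 2 * ∫ y in (0:ℝ)..1, h y)⁻¹ * ∫ y in (0:ℝ)..1, h (s + y) * m y ^ 2
  hτ0 : τ 0 = 0
  hτ : ∀ t, HasDerivAt τ (T * Real.sqrt (1 - z (τ t))) t

variable {h q m z τ : ℝ → ℝ} {A T : ℝ}

/-- velocity of the shift -/
noncomputable def Wt (z τ : ℝ → ℝ) (T : ℝ) (t : ℝ) : ℝ := T * Real.sqrt (1 - z (τ t))

/-- the derivative of `z` -/
noncomputable def zd (h m : ℝ → ℝ) (A : ℝ) (s : ℝ) : ℝ :=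
  (A ^ 2 * ∫ y in (0:ℝ)..1, h y)⁻¹ * ∫ y in (0:ℝ)..1, deriv h (s + y) * m y ^ 2

/-- the acceleration of the shift -/
noncomputable def Wd (h m τ : ℝ → ℝ) (A T : ℝ) (t : ℝ) : ℝ := -(T ^ 2 * zd h m A (τ t)) / 2

/-- the first momentum -/
noncomputable def al (m τ : ℝ → ℝ) (T t y : ℝ) : ℝ := T * m (y - τ t)

namespace Dat

theorem z_deriv (D : Dat h q m z τ A T) (s : ℝ) : HasDerivAt z (zd h m A s) s := by
  have h1 := (hasDeriv_par D.hh (r := fun y => m y ^ 2) (D.hm.continuous.pow 2) 1 s).const_mul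
    (A ^ 2 * ∫ y in (0:ℝ)..1, h y)⁻¹
  have h2 : z = fun s => (A ^ 2 * ∫ y in (0:ℝ)..1, h y)⁻¹ * ∫ y in (0:ℝ)..1, h (s + y) * m y ^ 2 :=
    funext D.hz
  rw [h2]
  exact h1

theorem z_cont (D : Dat h q m z τ A T) : Continuous z :=
  continuous_iff_continuousAt.2 fun s => (D.z_deriv s).continuousAt

theorem zd_cont (D : Dat h q m z τ A T) : Continuous (zd h m A) := by
  have h1 : Continuous (deriv h) := D.hh.continuous_deriv le_rfl
  have h2 := D.hm.continuous
  unfold zd
  fun_prop

theorem τ_cont (D : Dat h q m z τ A T) : Continuous τ :=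
  continuous_iff_continuousAt.2 fun s => (D.hτ s).continuousAt

theorem W_cont (D : Dat h q m z τ A T) : Continuous (Wt z τ T) := by
  have h1 := D.τ_cont
  have h2 := D.z_cont
  unfold Wt
  fun_prop

theorem Wd_cont (D : Dat h q m z τ A T) : Continuous (Wd h m τ A T) := by
  have h1 := D.τ_cont
  have h2 := D.zd_cont
  unfold Wd
  fun_prop

theorem τ_deriv (D : Dat h q m z τ A T) (t : ℝ) : HasDerivAt τ (Wt z τ T t) t := D.hτ t

theorem W_deriv (D : Dat h q m z τ A T) (t : ℝ) : HasDerivAt (Wt z τ T) (Wd h m τ A T t) t := by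
  have h0 : 0 < 1 - z (τ t) := by have := D.z1 (τ t); linarith
  have h1 : HasDerivAt (fun t => 1 - z (τ t)) (-(zd h m A (τ t) * (T * Real.sqrt (1 - z (τ t))))) t :=
    ((D.z_deriv (τ t)).comp t (D.hτ t)).const_sub 1
  have h2 := (h1.sqrt h0.ne').const_mul T
  have h3 : T * (-(zd h m A (τ t) * (T * Real.sqrt (1 - z (τ t)))) / (2 * Real.sqrt (1 - z (τ t)))) =
      Wd h m τ A T t := by
    have := Real.sqrt_pos.2 h0
    unfold Wd
    field_simp
  rw [h3] at h2
  exact h2

theorem τ_smooth (D : Dat h q m z τ A T) : ContDiff ℝ 1 τ := by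
  rw [contDiff_one_iff_deriv]
  refine ⟨fun t => (D.hτ t).differentiableAt, ?_⟩
  have : deriv τ = Wt z τ T := funext fun t => (D.hτ t).deriv
  rw [this]
  exact D.W_cont

theorem W_smooth (D : Dat h q m z τ A T) : ContDiff ℝ 1 (Wt z τ T) := by
  rw [contDiff_one_iff_deriv]
  refine ⟨fun t => (D.W_deriv t).differentiableAt, ?_⟩
  have : deriv (Wt z τ T) = Wd h m τ A T := funext fun t => (D.W_deriv t).deriv
  rw [this]
  exact D.Wd_cont

theorem m_deriv (D : Dat h q m z τ A T) (y : ℝ) : HasDerivAt m (deriv m y) y :=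
  (D.hm.differentiable one_ne_zero y).hasDerivAt

theorem h_deriv (D : Dat h q m z τ A T) (y : ℝ) : HasDerivAt h (deriv h y) y :=
  (D.hh.differentiable one_ne_zero y).hasDerivAt

theorem q_deriv (D : Dat h q m z τ A T) (y : ℝ) : HasDerivAt q (deriv q y) y :=
  (D.hq.differentiable one_ne_zero y).hasDerivAt

theorem al_t (D : Dat h q m z τ A T) (t y : ℝ) :
    HasDerivAt (fun t => al m τ T t y) (-(T * deriv m (y - τ t) * Wt z τ T t)) t := by
  have h1 : HasDerivAt (fun t => y - τ t) (-(Wt z τ T t)) t := (D.τ_deriv t).const_sub y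
  have h2 := ((D.m_deriv (y - τ t)).comp t h1).const_mul T
  have h3 : T * (deriv m (y - τ t) * -(Wt z τ T t)) = -(T * deriv m (y - τ t) * Wt z τ T t) := by ring
  rw [h3] at h2
  exact h2

theorem al_y (D : Dat h q m z τ A T) (t y : ℝ) :
    HasDerivAt (fun y => al m τ T t y) (T * deriv m (y - τ t)) y := by
  have h1 : HasDerivAt (fun y => y - τ t) 1 y := (hasDerivAt_id y).sub_const _
  have h2 := ((D.m_deriv (y - τ t)).comp y h1).const_mul T
  rw [mul_one] at h2
  exact h2

end Dat

/-- the right side of the second equation -/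
noncomputable def Rt (h m z τ : ℝ → ℝ) (A T t y : ℝ) : ℝ :=
  A ^ 2 * h y * Wd h m τ A T t + A ^ 2 * deriv h y * Wt z τ T t ^ 2 / 2 +
    deriv h y * al m τ T t y ^ 2 / 2

namespace Dat

theorem dh_per (D : Dat h q m z τ A T) (y : ℝ) : deriv h (y + 1) = deriv h y := by
  have h1 : (fun y => h (y + 1)) = h := funext D.ph
  conv_rhs => rw [← h1]
  exact (deriv_comp_add_const h 1 y).symm

theorem R_cont (D : Dat h q m z τ A T) (t : ℝ) : Continuous (Rt h m z τ A T t) := by
  have h1 : Continuous (deriv h) := D.hh.continuous_deriv le_rfl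
  have h2 := D.hm.continuous
  have h3 := D.hh.continuous
  unfold Rt al
  fun_prop

theorem R_per (D : Dat h q m z τ A T) (t y : ℝ) : Rt h m z τ A T t (y + 1) = Rt h m z τ A T t y := by
  unfold Rt al
  have h1 : y + 1 - τ t = (y - τ t) + 1 := by ring
  rw [D.dh_per, D.ph, h1, D.pm]

theorem R_int (D : Dat h q m z τ A T) (t : ℝ) : ∫ y in (0:ℝ)..1, Rt h m z τ A T t y = 0 := by
  have h1 : Continuous (deriv h) := D.hh.continuous_deriv le_rfl
  have h2 := D.hm.continuous
  have h3 := D.hh.continuous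
  have i1 : IntervalIntegrable (fun y => A ^ 2 * h y * Wd h m τ A T t) volume 0 1 :=
    (by fun_prop : Continuous (fun y => A ^ 2 * h y * Wd h m τ A T t)).intervalIntegrable _ _
  have i2 : IntervalIntegrable (fun y => A ^ 2 * deriv h y * Wt z τ T t ^ 2 / 2) volume 0 1 :=
    (by fun_prop : Continuous (fun y => A ^ 2 * deriv h y * Wt z τ T t ^ 2 / 2)).intervalIntegrable _ _
  have c3 : Continuous (fun y => deriv h y * al m τ T t y ^ 2 / 2) := by
    unfold al
    fun_prop
  have i3 : IntervalIntegrable (fun y => deriv h y * al m τ T t y ^ 2 / 2) volume 0 1 :=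
    c3.intervalIntegrable _ _
  have e0 : ∫ y in (0:ℝ)..1, Rt h m z τ A T t y =
      (∫ y in (0:ℝ)..1, A ^ 2 * h y * Wd h m τ A T t) +
      (∫ y in (0:ℝ)..1, A ^ 2 * deriv h y * Wt z τ T t ^ 2 / 2) +
      ∫ y in (0:ℝ)..1, deriv h y * al m τ T t y ^ 2 / 2 := by
    unfold Rt
    rw [intervalIntegral.integral_add (i1.add i2) i3, intervalIntegral.integral_add i1 i2]
  have e1 : ∫ y in (0:ℝ)..1, A ^ 2 * h y * Wd h m τ A T t =
      A ^ 2 * (∫ y in (0:ℝ)..1, h y) * Wd h m τ A T t := by
    rw [intervalIntegral.integral_mul_const, intervalIntegral.integral_const_mul]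
  have e2 : ∫ y in (0:ℝ)..1, A ^ 2 * deriv h y * Wt z τ T t ^ 2 / 2 = 0 := by
    have : ∀ y, A ^ 2 * deriv h y * Wt z τ T t ^ 2 / 2 = (A ^ 2 * Wt z τ T t ^ 2 / 2) * deriv h y :=
      fun y => by ring
    simp_rw [this]
    rw [intervalIntegral.integral_const_mul,
      intervalIntegral.integral_eq_sub_of_hasDerivAt (fun y _ => D.h_deriv y)
        (h1.intervalIntegrable _ _)]
    have := D.ph 0
    rw [zero_add] at this
    rw [this]
    ring
  have e3 : ∫ y in (0:ℝ)..1, deriv h y * al m τ T t y ^ 2 / 2 =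
      T ^ 2 / 2 * ∫ y in (0:ℝ)..1, deriv h (τ t + y) * m y ^ 2 := by
    have g1 : ∫ y in (0:ℝ)..1, deriv h (τ t + y) * m y ^ 2 =
        ∫ y in (0 - τ t)..(0 - τ t + 1), deriv h (τ t + y) * m y ^ 2 := by
      have hp : Function.Periodic (fun y => deriv h (τ t + y) * m y ^ 2) 1 := by
        intro y
        show deriv h (τ t + (y + 1)) * m (y + 1) ^ 2 = _
        rw [← add_assoc, D.dh_per, D.pm]
      have := hp.intervalIntegral_add_eq 0 (0 - τ t)
      rw [zero_add] at this
      exact this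
    have g2 : ∫ y in (0:ℝ)..1, deriv h (τ t + (y - τ t)) * m (y - τ t) ^ 2 =
        ∫ y in (0 - τ t)..(1 - τ t), deriv h (τ t + y) * m y ^ 2 :=
      intervalIntegral.integral_comp_sub_right (fun y => deriv h (τ t + y) * m y ^ 2) (τ t)
    have g3 : (0 - τ t + 1) = 1 - τ t := by ring
    rw [g1, g3, ← g2, ← intervalIntegral.integral_const_mul]
    congr 1
    funext y
    have : τ t + (y - τ t) = y := by ring
    rw [this]
    unfold al
    ring
  rw [e0, e1, e2, e3]
  have hI : 0 < ∫ y in (0:ℝ)..1, h y :=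
    intervalIntegral.intervalIntegral_pos_of_pos (h3.intervalIntegrable _ _) D.hpos one_pos
  have hA := D.hA
  unfold Wd zd
  field_simp
  ring

end Dat

/-- the pressure -/
noncomputable def Pt (h m z τ : ℝ → ℝ) (A T t y : ℝ) : ℝ := -∫ s in (0:ℝ)..y, Rt h m z τ A T t s

namespace Dat

theorem P_deriv (D : Dat h q m z τ A T) (t y : ℝ) :
    HasDerivAt (Pt h m z τ A T t) (-Rt h m z τ A T t y) y :=
  (intervalIntegral.integral_hasDerivAt_right ((D.R_cont t).intervalIntegrable _ _)
      (D.R_cont t).stronglyMeasurable.stronglyMeasurableAtFilter (D.R_cont t).continuousAt).neg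

theorem P_per (D : Dat h q m z τ A T) (t y : ℝ) : Pt h m z τ A T t (y + 1) = Pt h m z τ A T t y := by
  unfold Pt
  have hp : Function.Periodic (Rt h m z τ A T t) 1 := D.R_per t
  have h1 := hp.intervalIntegral_add_eq y 0
  rw [zero_add, D.R_int t] at h1
  have h2 := intervalIntegral.integral_add_adjacent_intervals
    ((D.R_cont t).intervalIntegrable (μ := volume) 0 y) ((D.R_cont t).intervalIntegrable y (y + 1))
  rw [h1, add_zero] at h2
  rw [h2]

theorem P_smooth (D : Dat h q m z τ A T) (t : ℝ) : ContDiff ℝ 1 (Pt h m z τ A T t) := by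
  rw [contDiff_one_iff_deriv]
  refine ⟨fun y => (D.P_deriv t y).differentiableAt, ?_⟩
  have : deriv (Pt h m z τ A T t) = fun y => -Rt h m z τ A T t y :=
    funext fun y => (D.P_deriv t y).deriv
  rw [this]
  exact (D.R_cont t).neg

/-- The invariant Euler flow. -/
theorem isEulerFlow (D : Dat h q m z τ A T) :
    IsEulerFlow (fun _ y => 1 / h y) (fun _ y => q y / h y)
      (fun _ y => q y ^ 2 / h y + A ^ 2 * h y)
      (fun t _ y => h y * al m τ T t y - q y * Wt z τ T t) (fun t _ _ => Wt z τ T t)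
      (fun t _ y => Pt h m z τ A T t y)
      (fun t x y => x + (T * m y * (∫ r in (0:ℝ)..t, h (y + τ r)) -
        ((∫ s in (0:ℝ)..(y + τ t), q s) - ∫ s in (0:ℝ)..y, q s)))
      (fun t _ y => y + τ t) := by
  have hh := D.hh
  have hq := D.hq
  have hm := D.hm
  have hW := D.W_smooth
  have hτ := D.τ_smooth
  have hal : ∀ t y, T * m (y - τ t) = al m τ T t y := fun t y => rfl
  have l1 : ∀ t y, 1 / h y * (h y * al m τ T t y - q y * Wt z τ T t) + q y / h y * Wt z τ T t =
      al m τ T t y := by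
    intro t y
    have := (D.hpos y).ne'
    field_simp
    ring
  have l2 : ∀ t y, q y / h y * (h y * al m τ T t y - q y * Wt z τ T t) +
      (q y ^ 2 / h y + A ^ 2 * h y) * Wt z τ T t = q y * al m τ T t y + A ^ 2 * h y * Wt z τ T t := by
    intro t y
    have := (D.hpos y).ne'
    field_simp
    ring
  refine ⟨?_, ?_, ?_, ?_, ?_, ?_, ?_, ?_, ?_, ?_⟩
  · unfold al
    fun_prop
  · fun_prop
  · intro t
    exact (D.P_smooth t).comp contDiff_snd
  · intro t x y
    exact ⟨rfl, rfl, rfl⟩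
  · intro t x y
    refine ⟨?_, rfl, D.P_per t y⟩
    have h1 : y + 1 - τ t = (y - τ t) + 1 := by ring
    show h (y + 1) * (T * m (y + 1 - τ t)) - q (y + 1) * Wt z τ T t = _
    rw [D.ph, D.pq, h1, D.pm]
    rfl
  · intro t x y
    have h1 : ∀ y, 1 / h y * (q y ^ 2 / h y + A ^ 2 * h y) - (q y / h y) ^ 2 = A ^ 2 := by
      intro y
      have := (D.hpos y).ne'
      field_simp
      ring
    simp only [h1, deriv_const', add_zero]
  · intro t x y
    simp only [l1, deriv_const', mul_zero, zero_mul, add_zero, zero_div, sub_zero, neg_zero]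
    rw [(D.al_t t y).deriv, (D.al_y t y).deriv]
    ring
  · intro t x y
    simp only [l2, deriv_const', mul_zero, add_zero]
    have d1 := ((D.al_t t y).const_mul (q y)).add ((D.W_deriv t).const_mul (A ^ 2 * h y))
    have d2 := ((D.q_deriv y).mul (D.al_y t y)).add
      (((D.h_deriv y).const_mul (A ^ 2)).mul_const (Wt z τ T t))
    have d3 := (hasDerivAt_const y (1:ℝ)).div (D.h_deriv y) (D.hpos y).ne'
    have d4 := (D.q_deriv y).div (D.h_deriv y) (D.hpos y).ne'
    have d5 := (((D.q_deriv y).pow 2).div (D.h_deriv y) (D.hpos y).ne').add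
      ((D.h_deriv y).const_mul (A ^ 2))
    have f1 : deriv (fun t => q y * al m τ T t y + A ^ 2 * h y * Wt z τ T t) t = _ := d1.deriv
    have f2 : deriv (fun y => q y * al m τ T t y + A ^ 2 * h y * Wt z τ T t) y = _ := d2.deriv
    have f3 : deriv (fun y => 1 / h y) y = _ := d3.deriv
    have f4 : deriv (fun y => q y / h y) y = _ := d4.deriv
    have f5 : deriv (fun y => q y ^ 2 / h y + A ^ 2 * h y) y = _ := d5.deriv
    have f6 : deriv (fun y => Pt h m z τ A T t y) y = _ := (D.P_deriv t y).deriv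
    rw [f1, f2, f3, f4, f5, f6]
    have := (D.hpos y).ne'
    unfold Rt
    simp only [Pi.pow_apply]
    field_simp
    ring
  · intro x y
    rw [D.hτ0]
    simp
  · intro t x y
    have c1 : Continuous (fun r => h (y + τ r)) := by
      have := hτ.continuous
      have := hh.continuous
      fun_prop
    have e1 : HasDerivAt (fun t => ∫ r in (0:ℝ)..t, h (y + τ r)) (h (y + τ t)) t :=
      intervalIntegral.integral_hasDerivAt_right (c1.intervalIntegrable _ _)
        c1.stronglyMeasurable.stronglyMeasurableAtFilter c1.continuousAt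
    have e2 : HasDerivAt (fun s => ∫ r in (0:ℝ)..s, q r) (q (y + τ t)) (y + τ t) :=
      intervalIntegral.integral_hasDerivAt_right (hq.continuous.intervalIntegrable _ _)
        hq.continuous.stronglyMeasurable.stronglyMeasurableAtFilter hq.continuous.continuousAt
    have e3 : HasDerivAt (fun t => y + τ t) (Wt z τ T t) t := (D.τ_deriv t).const_add y
    have e4 := e2.comp t e3
    refine ⟨?_, e3⟩
    have e5 := ((e1.const_mul (T * m y)).sub (e4.sub_const (∫ s in (0:ℝ)..y, q s))).const_add x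
    have e6 : T * m y * h (y + τ t) - q (y + τ t) * Wt z τ T t =
        h (y + τ t) * al m τ T t (y + τ t) - q (y + τ t) * Wt z τ T t := by
      unfold al
      have : y + τ t - τ t = y := by ring
      rw [this]
      ring
    rw [e6] at e5
    exact e5

end Dat

end Pool.Agent.Eqt
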