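import Pool.Agent.Eqt.Flow

/-!
Assembly
-/

set_option autoImplicit false

namespace Pool.Agent.Eqt

open MeasureTheory Set Filter Topology intervalIntegral
open scoped ContDiff

theorem prim_deriv {q : ℝ → ℝ} (hq : Continuous q) (y : ℝ) :
    HasDerivAt (fun s => ∫ r in (0:ℝ)..s, q r) (q y) y :=
  intervalIntegral.integral_hasDerivAt_right (hq.intervalIntegrable _ _)
    hq.stronglyMeasurable.stronglyMeasurableAtFilter hq.continuousAt

theorem prim_smooth {q : ℝ → ℝ} (hq : ContDiff ℝ ∞ q) :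
    ContDiff ℝ ∞ (fun s => ∫ r in (0:ℝ)..s, q r) := by
  rw [contDiff_infty_iff_deriv]
  refine ⟨fun y => (prim_deriv hq.continuous y).differentiableAt, ?_⟩
  have : deriv (fun s => ∫ r in (0:ℝ)..s, q r) = q :=
    funext fun y => (prim_deriv hq.continuous y).deriv
  rw [this]
  exact hq

theorem prim_per {q : ℝ → ℝ} (hq : Continuous q) (hp : ∀ y, q (y + 1) = q y) (y : ℝ) :
    ∫ r in (0:ℝ)..(y + 1), q r = (∫ r in (0:ℝ)..y, q r) + ∫ r in (0:ℝ)..1, q r := by
  have h1 := (show Function.Periodic q 1 from hp).intervalIntegral_add_eq y 0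
  rw [zero_add] at h1
  rw [← h1]
  exact (intervalIntegral.integral_add_adjacent_intervals (hq.intervalIntegrable _ _)
    (hq.intervalIntegrable _ _)).symm

theorem prim_nat {q : ℝ → ℝ} (hq : Continuous q) (hp : ∀ y, q (y + 1) = q y) (y : ℝ) (n : ℕ) :
    ∫ r in (0:ℝ)..(y + n), q r = (∫ r in (0:ℝ)..y, q r) + n * ∫ r in (0:ℝ)..1, q r := by
  induction n with
  | zero => simp
  | succ n ih =>
    have : y + ((n + 1 : ℕ) : ℝ) = (y + n) + 1 := by push_cast; ring
    rw [this, prim_per hq hp, ih]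
    push_cast
    ring

theorem per_bound {g : ℝ → ℝ} (hg : Continuous g) (hp : ∀ y, g (y + 1) = g y) :
    ∃ C, ∀ y, |g y| ≤ C := by
  have h1 : IsCompact (range g) :=
    (show Function.Periodic g 1 from hp).compact_of_continuous one_ne_zero hg
  obtain ⟨C, hC⟩ := h1.isBounded.exists_norm_le
  exact ⟨C, fun y => hC _ ⟨y, rfl⟩⟩

theorem per_pos {g : ℝ → ℝ} (hg : Continuous g) (hp : ∀ y, g (y + 1) = g y) (hpos : ∀ y, 0 < g y) :
    ∃ c, 0 < c ∧ ∀ y, c ≤ g y := by
  have h1 : IsCompact (range g) :=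
    (show Function.Periodic g 1 from hp).compact_of_continuous one_ne_zero hg
  obtain ⟨c, ⟨y0, hy0⟩, hc⟩ := h1.exists_isLeast (range_nonempty g)
  exact ⟨c, hy0 ▸ hpos y0, fun y => hc ⟨y, rfl⟩⟩

/-- the form of the equivariant maps -/
theorem IsEquivariant.form {φ₁ φ₂ : ℝ → ℝ → ℝ} (h : IsEquivariant φ₁ φ₂) :
    (∀ x y, φ₁ x y = x + φ₁ 0 y) ∧ ∃ c, ∀ x y, φ₂ x y = y + c := by
  have h1 : ∀ x y, φ₁ x y = x + φ₁ 0 y := by
    intro x y
    have := (h.translations x 0 y).1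
    rw [zero_add] at this
    linarith
  have h2 : ∀ x y, φ₂ x y = φ₂ 0 y := by
    intro x y
    have := (h.translations x 0 y).2
    rwa [zero_add] at this
  refine ⟨h1, φ₂ 0 0, fun x y => ?_⟩
  rw [h2]
  have hd : Differentiable ℝ (fun y => φ₂ 0 y) := by
    have : ContDiff ℝ 1 (fun y : ℝ => φ₂ 0 y) :=
      h.smooth.2.comp (contDiff_const.prodMk contDiff_id)
    exact this.differentiable one_ne_zero
  have h3 : ∀ y, deriv (fun y => φ₂ 0 y) y = 1 := by
    intro y
    have h4 := h.area 0 y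
    have h5 : (fun x => φ₂ x y) = fun _ => φ₂ 0 y := funext fun x => h2 x y
    have h6 : (fun x => φ₁ x y) = fun x => x + φ₁ 0 y := funext fun x => h1 x y
    rw [h5, h6] at h4
    simpa using h4
  have h7 := is_const_of_deriv_eq_zero (f := fun y => φ₂ 0 y - y) (hd.sub differentiable_id)
    (fun y => by
      have := ((hd y).hasDerivAt.sub (hasDerivAt_id y)).deriv
      rw [h3 y, sub_self] at this
      exact this) y 0
  simp only [sub_zero] at h7
  linarith

theorem main (E F G : ℝ → ℝ) (A : ℝ) (hM : IsMetric E F G A) (φ₁ φ₂ : ℝ → ℝ → ℝ)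
    (hφ : IsEquivariant φ₁ φ₂) (R : ℝ) :
    ∃ (a b : ℝ → ℝ) (w : ℝ), R ≤ w ∧ ContDiff ℝ ∞ a ∧ ContDiff ℝ ∞ b ∧
      (∀ y, a (y + 1) = a y ∧ b (y + 1) = b y) ∧
      ExpEq (fun _ y => E y) (fun _ y => F y) (fun _ y => G y)
        (fun _ y => a y * φ₁ 0 y + b y) (fun _ _ => w) φ₁ φ₂ := by
  obtain ⟨hf1, c, hf2⟩ := hφ.form
  have hE := hM.smooth.1
  have hA := hM.area_pos
  have hEne : ∀ y, E y ≠ 0 := fun y => (hM.pos y).ne'
  obtain ⟨h, hh⟩ : ∃ h : ℝ → ℝ, h = fun y => 1 / E y := ⟨_, rfl⟩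
  obtain ⟨q, hq⟩ : ∃ q : ℝ → ℝ, q = fun y => F y / E y := ⟨_, rfl⟩
  have hhs : ContDiff ℝ ∞ h := by rw [hh]; exact contDiff_const.div hE hEne
  have hqs : ContDiff ℝ ∞ q := by rw [hq]; exact hM.smooth.2.1.div hE hEne
  have hhp : ∀ y, h (y + 1) = h y := fun y => by rw [hh]; simp only [(hM.periodic y).1]
  have hqp : ∀ y, q (y + 1) = q y := fun y => by
    rw [hq]; simp only [(hM.periodic y).1, (hM.periodic y).2.1]
  have hhpos : ∀ y, 0 < h y := fun y => by rw [hh]; exact one_div_pos.2 (hM.pos y)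
  obtain ⟨h0, h00, hh0⟩ := per_pos hhs.continuous hhp hhpos
  obtain ⟨h1, hh1⟩ := per_bound hhs.continuous hhp
  obtain ⟨f, hf⟩ : ∃ f : ℝ → ℝ, f = fun y => φ₁ 0 y := ⟨_, rfl⟩
  have hfs : ContDiff ℝ 1 f := by
    rw [hf]; exact hφ.smooth.1.comp (contDiff_const.prodMk contDiff_id)
  have hfp : ∀ y, f (y + 1) = f y := fun y => by rw [hf]; exact (hφ.deck 0 y).1
  obtain ⟨Q, hQ⟩ : ∃ Q : ℝ → ℝ, Q = fun s => ∫ r in (0:ℝ)..s, q r := ⟨_, rfl⟩
  obtain ⟨Q0, hQ0⟩ : ∃ Q0 : ℝ, Q0 = ∫ r in (0:ℝ)..1, q r := ⟨_, rfl⟩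
  have hQs : ContDiff ℝ ∞ Q := by rw [hQ]; exact prim_smooth hqs
  have hQp : ∀ y, Q (y + 1) = Q y + Q0 := fun y => by
    rw [hQ, hQ0]; exact prim_per hqs.continuous hqp y
  have hQn : ∀ y (n : ℕ), Q (y + n) = Q y + n * Q0 := fun y n => by
    rw [hQ, hQ0]; exact prim_nat hqs.continuous hqp y n
  obtain ⟨B1, hB1⟩ := per_bound (g := fun y => f y + (Q (y + c) - Q y))
    (hfs.continuous.add ((hQs.continuous.comp (continuous_id.add continuous_const)).sub
      hQs.continuous))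
    (fun y => by
      have : y + 1 + c = y + c + 1 := by ring
      show f (y + 1) + (Q (y + 1 + c) - Q (y + 1)) = f y + (Q (y + c) - Q y)
      rw [this, hQp, hQp, hfp]; ring)
  have hI : 0 < ∫ y in (0:ℝ)..1, h y :=
    intervalIntegral.intervalIntegral_pos_of_pos (hhs.continuous.intervalIntegrable _ _)
      hhpos one_pos
  obtain ⟨L0, hL0, hfix⟩ := exists_fix hhs.continuous h00 hh0
    (fun y => (le_abs_self _).trans (hh1 y)) (kap := A ^ 2 * ∫ y in (0:ℝ)..1, h y) (B := B1 + 1)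
    (by positivity)
  obtain ⟨N, hN⟩ := exists_nat_ge (max (L0 - c) (max (2 * R - c) (1 - c)))
  obtain ⟨L, hL⟩ : ∃ L : ℝ, L = c + N := ⟨_, rfl⟩
  have hLL0 : L0 ≤ L := by have := (le_max_left _ _).trans hN; linarith
  have hL2 := (le_max_right _ _).trans hN
  have hLR : 2 * R ≤ L := by have := (le_max_left _ _).trans hL2; linarith
  have hL1 : 1 ≤ L := by have := (le_max_right _ _).trans hL2; linarith
  have hLpos : 0 < L := by linarith
  obtain ⟨k, hk⟩ : ∃ k : ℤ, k = -⌊N * Q0⌋ := ⟨_, rfl⟩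
  obtain ⟨S, hS⟩ : ∃ S : ℝ → ℝ, S = fun y => Q (y + L) - Q y + k := ⟨_, rfl⟩
  have hSs : ContDiff ℝ ∞ S := by
    rw [hS]
    exact ((hQs.comp (contDiff_id.add contDiff_const)).sub hQs).add contDiff_const
  have hSp : ∀ y, S (y + 1) = S y := by
    intro y
    rw [hS]
    have : y + 1 + L = y + L + 1 := by ring
    simp only [this, hQp]
    ring
  have hSe : ∀ y, S y = (Q (y + c) - Q y) + (N * Q0 - ⌊N * Q0⌋) := by
    intro y
    rw [hS, hL, hk]
    have : y + (c + N) = (y + c) + N := by ring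
    simp only [this, hQn]
    push_cast
    ring
  have hFB : ∀ y, |f y + S y| ≤ B1 + 1 := by
    intro y
    rw [hSe, ← add_assoc]
    have e1 := Int.floor_le ((N:ℝ) * Q0)
    have e2 := Int.lt_floor_add_one ((N:ℝ) * Q0)
    refine (abs_add_le _ _).trans (add_le_add (hB1 y) ?_)
    rw [abs_le]
    constructor <;> linarith
  have hFs : ContDiff ℝ 1 (fun y => f y + S y) := hfs.add (hSs.of_le (by exact_mod_cast le_top))
  obtain ⟨z, hzc, hz0, hz1, hz⟩ := hfix L hLL0 (fun y => f y + S y) hFs.continuous hFB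
  obtain ⟨D, hD⟩ : ∃ D : ℝ → ℝ, D = Dn h L z := ⟨_, rfl⟩
  have hDge : ∀ y, h0 * L ≤ D y := fun y => by
    rw [hD]; exact Dn_ge hhs.continuous hh0 h00 hLpos.le hzc y
  have hDpos : ∀ y, 0 < D y := fun y => lt_of_lt_of_le (by positivity) (hDge y)
  have hDs : ContDiff ℝ ∞ D := by
    rw [hD]
    exact contDiff_infty.2 fun n => contDiff_par (hhs.of_le (by exact_mod_cast le_top))
      (rho_cont.comp hzc) L
  have hDp : ∀ y, D (y + 1) = D y := by
    intro y
    rw [hD]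
    unfold Dn
    congr 1
    funext s
    have : y + 1 + s = y + s + 1 := by ring
    rw [this, hhp]
  obtain ⟨m, hm⟩ : ∃ m : ℝ → ℝ, m = fun y => (f y + S y) / D y := ⟨_, rfl⟩
  have hms : ContDiff ℝ 1 m := by
    rw [hm]
    exact hFs.div (hDs.of_le (by exact_mod_cast le_top)) fun y => (hDpos y).ne'
  obtain ⟨T, τ, hT, hτ0, hτ1, hτ⟩ := exists_time hzc hz0 hz1 hLpos
  have hDat : Dat h q m z τ A T := by
    refine ⟨hhs.of_le (by exact_mod_cast le_top), hqs.of_le (by exact_mod_cast le_top), hms, hhp,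
      hqp, ?_, hhpos, hA, hz0, hz1, ?_, hτ0, hτ⟩
    · intro y
      rw [hm]
      simp only [hfp, hSp, hDp]
    · intro s
      rw [hz s, hm, hD]
  have hW0 : L / 2 ≤ Wt z τ T 0 := by
    unfold Wt
    have h2 : (1:ℝ) / 2 ≤ Real.sqrt (1 - z (τ 0)) := by
      apply Real.le_sqrt_of_sq_le
      have := hz1 (τ 0)
      linarith
    nlinarith
  refine ⟨fun y => h y * T / D y, fun y => h y * T / D y * S y - q y * Wt z τ T 0, Wt z τ T 0,
    by linarith, (hhs.mul contDiff_const).div hDs fun y => (hDpos y).ne',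
    (((hhs.mul contDiff_const).div hDs fun y => (hDpos y).ne').mul hSs).sub
      (hqs.mul contDiff_const), fun y => ⟨by simp only [hhp, hDp], by simp only [hhp, hDp, hSp, hqp]⟩,
    ?_⟩
  have hflow := hDat.isEulerFlow
  have hE1 : (fun (_ : ℝ) y => 1 / h y) = fun _ y => E y := by
    funext _ y
    rw [hh]
    simp
  have hF1 : (fun (_ : ℝ) y => q y / h y) = fun _ y => F y := by
    funext _ y
    rw [hh, hq]
    have := hEne y
    field_simp
  have hG1 : (fun (_ : ℝ) y => q y ^ 2 / h y + A ^ 2 * h y) = fun _ y => G y := by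
    funext _ y
    rw [hh, hq]
    have := hEne y
    have h5 := hM.area y
    field_simp
    linarith
  rw [hE1, hF1, hG1] at hflow
  refine ⟨_, _, _, _, _, hflow, fun x y => ⟨?_, rfl⟩, k, N, fun x y => ⟨?_, ?_⟩⟩
  · show h y * al m τ T 0 y - q y * Wt z τ T 0 = _
    unfold al
    rw [hτ0, sub_zero, hm, hf]
    ring
  · show x + (T * m y * (∫ r in (0:ℝ)..1, h (y + τ r)) -
        ((∫ s in (0:ℝ)..(y + τ 1), q s) - ∫ s in (0:ℝ)..y, q s)) = _
    have hc : T * (∫ r in (0:ℝ)..1, h (y + τ r)) = D y := by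
      have g1 := intervalIntegral.integral_comp_mul_deriv (a := 0) (b := 1) (f := τ)
        (f' := fun t => T * Real.sqrt (1 - z (τ t))) (g := fun s => h (y + s) * rho (z s))
        (fun t _ => hτ t) (hDat.W_cont.continuousOn)
        (by
          have g2 := rho_cont
          have g3 := hhs.continuous
          fun_prop)
      rw [hτ0, hτ1] at g1
      rw [hD]
      unfold Dn
      rw [← g1, ← intervalIntegral.integral_const_mul]
      congr 1
      funext t
      have g4 : 0 < Real.sqrt (1 - z (τ t)) := Real.sqrt_pos.2 (by have := hz1 (τ t); linarith)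
      simp only [Function.comp_apply]
      rw [rho_eq (hz0 _) (hz1 _)]
      field_simp
    have hq1 : (∫ s in (0:ℝ)..(y + τ 1), q s) - ∫ s in (0:ℝ)..y, q s = S y - k := by
      rw [hS, hQ, hτ1]
      ring
    have hm1 : T * m y * (∫ r in (0:ℝ)..1, h (y + τ r)) = f y + S y := by
      have : T * m y * (∫ r in (0:ℝ)..1, h (y + τ r)) = m y * (T * ∫ r in (0:ℝ)..1, h (y + τ r)) := by
        ring
      rw [this, hc, hm]
      exact div_mul_cancel₀ _ (hDpos y).ne'
    rw [hq1, hm1, hf1 x y, hf]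
    ring
  · show y + τ 1 = _
    rw [hτ1, hf2 x y, hL]
    push_cast
    ring

end Pool.Agent.Eqt
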