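import Pool.Agent.Eqt.Fix

/-!
The time change
-/

set_option autoImplicit false

namespace Pool.Agent.Eqt

open MeasureTheory Set Filter Topology intervalIntegral

theorem rho_eq {t : ℝ} (h0 : 0 ≤ t) (h1 : t ≤ 1 / 2) : rho t = (Real.sqrt (1 - t))⁻¹ := by
  unfold rho
  rw [cut_self h0 h1]

theorem exists_time {z : ℝ → ℝ} (hz : Continuous z) (h0 : ∀ s, 0 ≤ z s) (h1 : ∀ s, z s ≤ 1 / 2)
    {L : ℝ} (hL : 0 < L) :
    ∃ (T : ℝ) (τ : ℝ → ℝ), L ≤ T ∧ τ 0 = 0 ∧ τ 1 = L ∧
      ∀ t, HasDerivAt τ (T * Real.sqrt (1 - z (τ t))) t := by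
  have hr : Continuous (fun s => rho (z s)) := rho_cont.comp hz
  let Θ : ℝ → ℝ := fun s => ∫ x in (0:ℝ)..s, rho (z x)
  have hΘ : ∀ s, HasDerivAt Θ (rho (z s)) s := fun s =>
    intervalIntegral.integral_hasDerivAt_right (hr.intervalIntegrable _ _)
      hr.stronglyMeasurable.stronglyMeasurableAtFilter hr.continuousAt
  have hΘc : Continuous Θ := continuous_iff_continuousAt.2 fun s => (hΘ s).continuousAt
  have hrpos : ∀ s, 0 < rho (z s) := fun s => zero_lt_one.trans_le (rho_ge _)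
  have hmono : StrictMono Θ := strictMono_of_deriv_pos fun s => by
    rw [(hΘ s).deriv]; exact hrpos s
  have hΘ0 : Θ 0 = 0 := intervalIntegral.integral_same
  have hge : ∀ s, 0 ≤ s → s ≤ Θ s := by
    intro s hs
    have e : s = ∫ _ in (0:ℝ)..s, (1:ℝ) := by simp
    conv_lhs => rw [e]
    exact intervalIntegral.integral_mono_on hs (by simp) (hr.intervalIntegrable _ _)
      fun x _ => rho_ge _
  have hle : ∀ s, s ≤ 0 → Θ s ≤ s := by
    intro s hs
    have e : ∫ _ in s..(0:ℝ), (1:ℝ) = -s := by simp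
    have h2 : ∫ _ in s..(0:ℝ), (1:ℝ) ≤ ∫ x in s..(0:ℝ), rho (z x) :=
      intervalIntegral.integral_mono_on hs (by simp) (hr.intervalIntegrable _ _)
        fun x _ => rho_ge _
    have h3 : Θ s = -∫ x in s..(0:ℝ), rho (z x) := intervalIntegral.integral_symm _ _
    rw [h3]
    linarith
  have htop : Tendsto Θ atTop atTop :=
    tendsto_atTop_mono' atTop ((eventually_ge_atTop 0).mono hge) tendsto_id
  have hbot : Tendsto Θ atBot atBot :=
    tendsto_atBot_mono' atBot ((eventually_le_atBot 0).mono hle) tendsto_id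
  have hsurj : Function.Surjective Θ := hΘc.surjective htop hbot
  let e := hmono.orderIsoOfSurjective Θ hsurj
  have he : ∀ s, Θ (e.symm s) = s := fun s => e.apply_symm_apply s
  have he' : ∀ s, e.symm (Θ s) = s := fun s => e.symm_apply_apply s
  have hsym : ∀ t, HasDerivAt e.symm (Real.sqrt (1 - z (e.symm t))) t := by
    intro t
    have h4 := HasDerivAt.of_local_left_inverse (g := e.symm) (f := Θ) (a := t)
      e.symm.continuous.continuousAt (hΘ _) (hrpos _).ne' (Eventually.of_forall he)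
    rw [rho_eq (h0 _) (h1 _), inv_inv] at h4
    exact h4
  refine ⟨Θ L, fun t => e.symm (Θ L * t), hge L hL.le, ?_, ?_, fun t => ?_⟩
  · show e.symm (Θ L * 0) = 0
    rw [mul_zero, ← hΘ0, he', hΘ0]
  · show e.symm (Θ L * 1) = L
    rw [mul_one, he']
  · have h5 : HasDerivAt (fun t : ℝ => Θ L * t) (Θ L) t := by
      simpa using (hasDerivAt_id t).const_mul (Θ L)
    have h6 := (hsym (Θ L * t)).comp t h5
    rw [mul_comm] at h6
    exact h6

end Pool.Agent.Eqt
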